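import Mathlib
import Pool.Agent.U398.MV.Stm

/-!
# Project MV, package R: the function `rr`
-/

set_option autoImplicit false

namespace Pool.Agent.U460.MV.R

open MeasureTheory Filter Topology Set Pool.Agent.U398.MV

noncomputable section

/-- `exp (x² / 4)` -/
def ee (x : ℝ) : ℝ := Real.exp (x ^ 2 / 4)

lemma ee_pos (x : ℝ) : 0 < ee x := Real.exp_pos _

lemma ee_le {x : ℝ} (h0 : 0 ≤ x) (h1 : x ≤ 1) : ee x ≤ 2 := by
  unfold ee
  have h2 : x ^ 2 / 4 ≤ 1 / 4 := by nlinarith
  have h3 : Real.exp (x ^ 2 / 4) ≤ Real.exp (1 / 4) := Real.exp_le_exp.2 h2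
  have h4 : (-(1 / 4 : ℝ)) + 1 ≤ Real.exp (-(1 / 4)) := Real.add_one_le_exp _
  have h5 : Real.exp (1 / 4) * Real.exp (-(1 / 4)) = 1 := by
    rw [← Real.exp_add]; norm_num
  have h6 := Real.exp_pos (1 / 4)
  nlinarith

lemma hasDeriv_ee (x : ℝ) : HasDerivAt ee (x / 2 * ee x) x := by
  have h1 : HasDerivAt (fun x : ℝ => x ^ 2 / 4) (x / 2) x :=
    ((hasDerivAt_pow 2 x).div_const 4).congr_deriv (by norm_num; ring)
  exact h1.exp.congr_deriv (by unfold ee; ring)

lemma cont_ee : Continuous ee := by unfold ee; fun_prop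

def G0 (h x : ℝ) : ℝ := (h - x) * ee x
def G1 (h x : ℝ) : ℝ := ee x * (-1 + (h - x) * x / 2)
def G2 (h x : ℝ) : ℝ := ee x * (h / 2 - 3 * x / 2 + (h - x) * x ^ 2 / 4)
def G3 (h x : ℝ) : ℝ := ee x * (x / 2 * (h / 2 - 3 * x / 2 + (h - x) * x ^ 2 / 4) + (-(3 / 2) + (2 * h * x - 3 * x ^ 2) / 4))

lemma cont_G0 (h : ℝ) : Continuous (G0 h) := by unfold G0; have := cont_ee; fun_prop
lemma cont_G1 (h : ℝ) : Continuous (G1 h) := by unfold G1; have := cont_ee; fun_prop
lemma cont_G2 (h : ℝ) : Continuous (G2 h) := by unfold G2; have := cont_ee; fun_prop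
lemma cont_G3 (h : ℝ) : Continuous (G3 h) := by unfold G3; have := cont_ee; fun_prop

lemma der0 (h x : ℝ) : HasDerivAt (G0 h) (G1 h x) x := by
  have h1 : HasDerivAt (fun x : ℝ => h - x) (-1) x := (hasDerivAt_id' x).const_sub h
  exact (h1.mul (hasDeriv_ee x)).congr_deriv (by unfold G1; ring)

lemma der1 (h x : ℝ) : HasDerivAt (G1 h) (G2 h x) x := by
  have a1 : HasDerivAt (fun x : ℝ => h - x) (-1) x := (hasDerivAt_id' x).const_sub h
  have h1 : HasDerivAt (fun x : ℝ => -1 + (h - x) * x / 2) ((h - 2 * x) / 2) x :=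
    (((a1.mul (hasDerivAt_id' x)).div_const 2).const_add (-1)).congr_deriv (by ring)
  exact ((hasDeriv_ee x).mul h1).congr_deriv (by unfold G2; ring)

lemma der2 (h x : ℝ) : HasDerivAt (G2 h) (G3 h x) x := by
  have a1 : HasDerivAt (fun x : ℝ => h - x) (-1) x := (hasDerivAt_id' x).const_sub h
  have a2 : HasDerivAt (fun x : ℝ => (h - x) * x ^ 2 / 4) ((2 * h * x - 3 * x ^ 2) / 4) x :=
    ((a1.mul (hasDerivAt_pow 2 x)).div_const 4).congr_deriv (by norm_num; ring)
  have a3 : HasDerivAt (fun x : ℝ => h / 2 - 3 * x / 2) (-(3 / 2)) x :=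
    (((hasDerivAt_id' x).const_mul 3).div_const 2).const_sub (h / 2) |>.congr_deriv (by ring)
  exact ((hasDeriv_ee x).mul (a3.add a2)).congr_deriv (by simp only [Pi.add_apply]; unfold G3; ring)

lemma der_sin {u : ℝ} (hu : u ≠ 0) (x : ℝ) : HasDerivAt (fun x : ℝ => Real.sin (u * x) / u) (Real.cos (u * x)) x := by
  have h1 : HasDerivAt (fun x : ℝ => u * x) u x := ((hasDerivAt_id' x).const_mul u).congr_deriv (by ring)
  exact ((h1.sin).div_const u).congr_deriv (by field_simp)

lemma der_cos {u : ℝ} (hu : u ≠ 0) (x : ℝ) : HasDerivAt (fun x : ℝ => -Real.cos (u * x) / u) (Real.sin (u * x)) x := by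
  have h1 : HasDerivAt (fun x : ℝ => u * x) u x := ((hasDerivAt_id' x).const_mul u).congr_deriv (by ring)
  exact ((h1.cos.neg).div_const u).congr_deriv (by field_simp)

/-- integration by parts against the cosine -/
lemma ibp_cos {u h : ℝ} (hu : u ≠ 0) {F F' : ℝ → ℝ} (hF : ∀ x, HasDerivAt F (F' x) x) (hc : Continuous F') :
    ∫ x in (0 : ℝ)..h, F x * Real.cos (u * x) = F h * (Real.sin (u * h) / u) - ∫ x in (0 : ℝ)..h, F' x * (Real.sin (u * x) / u) := by
  have h1 := intervalIntegral.integral_mul_deriv_eq_deriv_mul (a := 0) (b := h) (u := F) (u' := F')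
    (v := fun x => Real.sin (u * x) / u) (v' := fun x => Real.cos (u * x))
    (fun x _ => hF x) (fun x _ => der_sin hu x) (hc.intervalIntegrable _ _)
    ((by fun_prop : Continuous fun x : ℝ => Real.cos (u * x)).intervalIntegrable _ _)
  rw [h1]
  simp

lemma ibp_sin {u h : ℝ} (hu : u ≠ 0) {F F' : ℝ → ℝ} (hF : ∀ x, HasDerivAt F (F' x) x) (hc : Continuous F') :
    ∫ x in (0 : ℝ)..h, F x * Real.sin (u * x) = F h * (-Real.cos (u * h) / u) + F 0 / u
      - ∫ x in (0 : ℝ)..h, F' x * (-Real.cos (u * x) / u) := by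
  have h1 := intervalIntegral.integral_mul_deriv_eq_deriv_mul (a := 0) (b := h) (u := F) (u' := F')
    (v := fun x => -Real.cos (u * x) / u) (v' := fun x => Real.sin (u * x))
    (fun x _ => hF x) (fun x _ => der_cos hu x) (hc.intervalIntegrable _ _)
    ((by fun_prop : Continuous fun x : ℝ => Real.sin (u * x)).intervalIntegrable _ _)
  rw [h1]
  simp
  ring

lemma key {u h : ℝ} (hu : u ≠ 0) :
    (∫ x in (0 : ℝ)..h, G0 h x * Real.cos (u * x)) =
      1 / u ^ 2 * (1 - ee h * Real.cos (u * h)) - 1 / u ^ 2 * ∫ x in (0 : ℝ)..h, G2 h x * Real.cos (u * x) := by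
  rw [ibp_cos hu (der0 h) (cont_G1 h)]
  have h1 : (∫ x in (0 : ℝ)..h, G1 h x * (Real.sin (u * x) / u)) = 1 / u * ∫ x in (0 : ℝ)..h, G1 h x * Real.sin (u * x) := by
    rw [← intervalIntegral.integral_const_mul]
    congr 1
    funext x
    ring
  have h2 : (∫ x in (0 : ℝ)..h, G2 h x * (-Real.cos (u * x) / u)) = -(1 / u) * ∫ x in (0 : ℝ)..h, G2 h x * Real.cos (u * x) := by
    rw [← intervalIntegral.integral_const_mul]
    congr 1
    funext x
    ring
  rw [h1, ibp_sin hu (der1 h) (cont_G2 h), h2]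
  have h3 : G0 h h = 0 := by simp [G0]
  have h4 : G1 h h = -ee h := by simp [G1]
  have h5 : G1 h 0 = -1 := by simp [G1, ee]
  rw [h3, h4, h5]
  field_simp
  ring

lemma rr_eq {h : ℝ} (hh : 0 < h) (u : ℝ) : rr h u = 1 / Real.pi * ∫ x in (0 : ℝ)..h, G0 h x * Real.cos (u * x) := by
  unfold rr
  have hc : Continuous fun x : ℝ => (h - |x|) * Real.exp (x ^ 2 / 4) * Real.cos (u * x) := by fun_prop
  have h1 := intervalIntegral.integral_add_adjacent_intervals (a := -h) (b := 0) (c := h) (μ := volume)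
    (hc.intervalIntegrable _ _) (hc.intervalIntegrable _ _)
  have h2 : (∫ x in (0 : ℝ)..h, (h - |x|) * Real.exp (x ^ 2 / 4) * Real.cos (u * x)) =
      ∫ x in (0 : ℝ)..h, G0 h x * Real.cos (u * x) := by
    apply intervalIntegral.integral_congr
    intro x hx
    rw [uIcc_of_le hh.le] at hx
    simp only [G0, ee, abs_of_nonneg hx.1]
  have h3 : (∫ x in (-h)..(0 : ℝ), (h - |x|) * Real.exp (x ^ 2 / 4) * Real.cos (u * x)) =
      ∫ x in (0 : ℝ)..h, (h - |x|) * Real.exp (x ^ 2 / 4) * Real.cos (u * x) := by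
    have := intervalIntegral.integral_comp_neg (a := 0) (b := h)
      (fun x : ℝ => (h - |x|) * Real.exp (x ^ 2 / 4) * Real.cos (u * x))
    rw [neg_zero] at this
    rw [← this]
    congr 1
    funext x
    rw [abs_neg, neg_sq, mul_neg, Real.cos_neg]
  rw [← h1, h3, h2]
  field_simp
  ring

lemma G2_le {h x : ℝ} (h1 : h ≤ 1) (hx0 : 0 ≤ x) (hxh : x ≤ h) : |G2 h x| ≤ 5 := by
  unfold G2
  have e0 := ee_pos x
  have e1 := ee_le hx0 (hxh.trans h1)
  rw [abs_mul, abs_of_pos e0]
  have h2 : |h / 2 - 3 * x / 2 + (h - x) * x ^ 2 / 4| ≤ 2 := by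
    have h3 : 0 ≤ (h - x) * x ^ 2 := mul_nonneg (by linarith) (sq_nonneg _)
    have h4 : (h - x) * x ^ 2 ≤ 1 := by
      have h5 : x ^ 2 ≤ 1 := by nlinarith
      nlinarith
    rw [abs_le]
    constructor <;> linarith
  nlinarith [abs_nonneg (h / 2 - 3 * x / 2 + (h - x) * x ^ 2 / 4)]

lemma G3_le {h x : ℝ} (h1 : h ≤ 1) (hx0 : 0 ≤ x) (hxh : x ≤ h) : |G3 h x| ≤ 10 := by
  unfold G3
  have e0 := ee_pos x
  have e1 := ee_le hx0 (hxh.trans h1)
  have hx1 : x ≤ 1 := hxh.trans h1
  rw [abs_mul, abs_of_pos e0]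
  have h2 : |h / 2 - 3 * x / 2 + (h - x) * x ^ 2 / 4| ≤ 2 := by
    have h3 : 0 ≤ (h - x) * x ^ 2 := mul_nonneg (by linarith) (sq_nonneg _)
    have h4 : (h - x) * x ^ 2 ≤ 1 := by
      have h5 : x ^ 2 ≤ 1 := by nlinarith
      nlinarith
    rw [abs_le]
    constructor <;> linarith
  have h3 : |x / 2 * (h / 2 - 3 * x / 2 + (h - x) * x ^ 2 / 4)| ≤ 1 := by
    rw [abs_mul, abs_of_nonneg (by linarith : (0 : ℝ) ≤ x / 2)]
    nlinarith [abs_nonneg (h / 2 - 3 * x / 2 + (h - x) * x ^ 2 / 4)]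
  have h4 : |-(3 / 2 : ℝ) + (2 * h * x - 3 * x ^ 2) / 4| ≤ 4 := by
    have h5 : 0 ≤ h * x := mul_nonneg (hx0.trans hxh) hx0
    have h6 : h * x ≤ 1 := by nlinarith
    have h7 : x ^ 2 ≤ 1 := by nlinarith
    have h8 := sq_nonneg x
    rw [abs_le]
    constructor <;> linarith
  have h5 := abs_add_le (x / 2 * (h / 2 - 3 * x / 2 + (h - x) * x ^ 2 / 4)) (-(3 / 2 : ℝ) + (2 * h * x - 3 * x ^ 2) / 4)
  have h6 := abs_nonneg (x / 2 * (h / 2 - 3 * x / 2 + (h - x) * x ^ 2 / 4) + (-(3 / 2 : ℝ) + (2 * h * x - 3 * x ^ 2) / 4))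
  nlinarith

lemma int2_le {h : ℝ} (hh : 0 < h) (h1 : h ≤ 1) (u : ℝ) : |∫ x in (0 : ℝ)..h, G2 h x * Real.cos (u * x)| ≤ 5 := by
  have h2 := intervalIntegral.norm_integral_le_of_norm_le_const (a := 0) (b := h) (C := 5)
    (f := fun x => G2 h x * Real.cos (u * x)) (by
      intro x hx
      rw [uIoc_of_le hh.le] at hx
      rw [Real.norm_eq_abs, abs_mul]
      have := G2_le h1 hx.1.le hx.2
      nlinarith [abs_nonneg (G2 h x), Real.abs_cos_le_one (u * x), abs_nonneg (Real.cos (u * x))])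
  rw [Real.norm_eq_abs, sub_zero, abs_of_pos hh] at h2
  linarith

lemma int2_le' {h : ℝ} (hh : 0 < h) (h1 : h ≤ 1) {u : ℝ} (hu : 1 ≤ u) :
    |∫ x in (0 : ℝ)..h, G2 h x * Real.cos (u * x)| ≤ 12 * h / u := by
  have hu0 : 0 < u := by linarith
  rw [ibp_cos hu0.ne' (der2 h) (cont_G3 h)]
  have h2 := intervalIntegral.norm_integral_le_of_norm_le_const (a := 0) (b := h) (C := 10 / u)
    (f := fun x => G3 h x * (Real.sin (u * x) / u)) (by
      intro x hx
      rw [uIoc_of_le hh.le] at hx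
      rw [Real.norm_eq_abs, abs_mul, abs_div, abs_of_pos hu0]
      have := G3_le h1 hx.1.le hx.2
      rw [← mul_div_assoc]
      apply div_le_div_of_nonneg_right _ hu0.le
      nlinarith [abs_nonneg (G3 h x), Real.abs_sin_le_one (u * x), abs_nonneg (Real.sin (u * x))])
  rw [Real.norm_eq_abs, sub_zero, abs_of_pos hh] at h2
  have h3 : |G2 h h * (Real.sin (u * h) / u)| ≤ 2 * h / u := by
    have e : G2 h h = -(h * ee h) := by unfold G2; ring
    rw [e, abs_mul, abs_neg, abs_div, abs_of_pos hu0, abs_of_pos (mul_pos hh (ee_pos h)), ← mul_div_assoc]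
    apply div_le_div_of_nonneg_right _ hu0.le
    have e1 := ee_le hh.le h1
    have e2 := ee_pos h
    have e3 := Real.abs_sin_le_one (u * h)
    have e4 := abs_nonneg (Real.sin (u * h))
    calc h * ee h * |Real.sin (u * h)| ≤ h * ee h * 1 := by
          apply mul_le_mul_of_nonneg_left e3 (by positivity)
      _ ≤ 2 * h := by nlinarith
  have h4 := abs_sub (G2 h h * (Real.sin (u * h) / u)) (∫ x in (0 : ℝ)..h, G3 h x * (Real.sin (u * x) / u))
  calc _ ≤ 2 * h / u + 10 / u * h := h4.trans (add_le_add h3 h2)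
    _ = 12 * h / u := by ring

lemma rr_cont (h : ℝ) : Continuous (rr h) := by
  unfold rr
  apply Continuous.mul continuous_const
  apply intervalIntegral.continuous_parametric_intervalIntegral_of_continuous'
  fun_prop

lemma rr_even (h u : ℝ) : rr h (-u) = rr h u := by
  unfold rr
  simp only [neg_mul, Real.cos_neg]

lemma rr_le {h : ℝ} (hh : 0 < h) (h1 : h ≤ 1) (u : ℝ) : |rr h u| ≤ h ^ 2 := by
  rw [rr_eq hh, abs_mul]
  have hpi := Real.pi_gt_three
  have h2 := intervalIntegral.norm_integral_le_of_norm_le_const (a := 0) (b := h) (C := 2 * h)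
    (f := fun x => G0 h x * Real.cos (u * x)) (by
      intro x hx
      rw [uIoc_of_le hh.le] at hx
      rw [Real.norm_eq_abs, abs_mul]
      have e1 := ee_le hx.1.le (hx.2.trans h1)
      have e2 := ee_pos x
      have h3 : |G0 h x| ≤ 2 * h := by
        unfold G0
        rw [abs_mul, abs_of_pos e2, abs_of_nonneg (by linarith [hx.2])]
        nlinarith [hx.1, hx.2]
      nlinarith [abs_nonneg (G0 h x), Real.abs_cos_le_one (u * x), abs_nonneg (Real.cos (u * x))])
  rw [Real.norm_eq_abs, sub_zero, abs_of_pos hh] at h2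
  rw [abs_of_pos (by positivity : 0 < 1 / Real.pi), one_div_mul_eq_div, div_le_iff₀ (by positivity)]
  nlinarith [sq_nonneg h]

lemma rr_sq {h : ℝ} (hh : 0 < h) (h1 : h ≤ 1) (u : ℝ) : |rr h u| * u ^ 2 ≤ 12 := by
  rcases eq_or_ne u 0 with rfl | hu
  · norm_num
  · have hpi := Real.pi_gt_three
    have hu2 : 0 < u ^ 2 := by positivity
    have e : rr h u * u ^ 2 = 1 / Real.pi * ((1 - ee h * Real.cos (u * h)) - ∫ x in (0 : ℝ)..h, G2 h x * Real.cos (u * x)) := by
      rw [rr_eq hh, key hu]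
      field_simp
    have e2 : |rr h u| * u ^ 2 = |rr h u * u ^ 2| := by rw [abs_mul, abs_of_pos hu2]
    rw [e2, e, abs_mul, abs_of_pos (by positivity : 0 < 1 / Real.pi), one_div_mul_eq_div, div_le_iff₀ (by positivity)]
    have h2 := int2_le hh h1 u
    have h3 : |1 - ee h * Real.cos (u * h)| ≤ 3 := by
      have e1 := ee_le hh.le h1
      have e2 := ee_pos h
      have e3 := Real.neg_one_le_cos (u * h)
      have e4 := Real.cos_le_one (u * h)
      rw [abs_le]
      constructor <;> nlinarith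
    have h4 := abs_sub (1 - ee h * Real.cos (u * h)) (∫ x in (0 : ℝ)..h, G2 h x * Real.cos (u * x))
    linarith

lemma rr_asym {h : ℝ} (hh : 0 < h) (h1 : h ≤ 1) {u : ℝ} (hu : 1 ≤ u) :
    |rr h u - 1 / (Real.pi * u ^ 2) * (1 - Real.exp (h ^ 2 / 4) * Real.cos (u * h))| ≤ 12 * h / u ^ 3 := by
  have hu0 : 0 < u := by linarith
  have hpi := Real.pi_gt_three
  have e : rr h u - 1 / (Real.pi * u ^ 2) * (1 - Real.exp (h ^ 2 / 4) * Real.cos (u * h)) =
      -(1 / (Real.pi * u ^ 2) * ∫ x in (0 : ℝ)..h, G2 h x * Real.cos (u * x)) := by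
    rw [rr_eq hh, key hu0.ne']
    unfold ee
    field_simp
    ring
  rw [e, abs_neg, abs_mul, abs_of_pos (by positivity : 0 < 1 / (Real.pi * u ^ 2))]
  have h2 := int2_le' hh h1 hu
  calc 1 / (Real.pi * u ^ 2) * |∫ x in (0 : ℝ)..h, G2 h x * Real.cos (u * x)| ≤ 1 / (1 * u ^ 2) * (12 * h / u) := by
        apply mul_le_mul _ h2 (abs_nonneg _) (by positivity)
        apply one_div_le_one_div_of_le (by positivity)
        apply mul_le_mul_of_nonneg_right _ (by positivity)
        linarith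
    _ = 12 * h / u ^ 3 := by field_simp

lemma rr_integrable {h : ℝ} (hh : 0 < h) (h1 : h ≤ 1) : Integrable (rr h) := by
  apply (integrable_inv_one_add_sq.const_mul 13).mono' (rr_cont h).aestronglyMeasurable
  refine Filter.Eventually.of_forall fun u => ?_
  rw [Real.norm_eq_abs]
  have h2 := rr_le hh h1 u
  have h3 := rr_sq hh h1 u
  rw [← div_eq_mul_inv, le_div_iff₀ (by positivity)]
  nlinarith

/-- the function whose transform is `rr` -/
def gg (h x : ℝ) : ℝ := max 0 (h - |x|) * Real.exp (x ^ 2 / 4)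

lemma gg_cont (h : ℝ) : Continuous (gg h) := by unfold gg; fun_prop

lemma gg_zero {h x : ℝ} (hx : x ∉ Icc (-h) h) : gg h x = 0 := by
  unfold gg
  have : h - |x| ≤ 0 := by
    by_contra hc
    push Not at hc
    apply hx
    have := abs_le.1 (by linarith : |x| ≤ h)
    exact this
  rw [max_eq_left this, zero_mul]

lemma gg_supp (h : ℝ) : HasCompactSupport (gg h) :=
  HasCompactSupport.intro isCompact_Icc fun _ hx => gg_zero hx

lemma gg_int (h : ℝ) : Integrable (gg h) := (gg_cont h).integrable_of_hasCompactSupport (gg_supp h)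

lemma int_gg {h : ℝ} (hh : 0 < h) (F : ℝ → ℝ) : (∫ x, gg h x * F x) = ∫ x in (-h)..h, (h - |x|) * Real.exp (x ^ 2 / 4) * F x := by
  rw [intervalIntegral.integral_of_le (by linarith), ← integral_Icc_eq_integral_Ioc, ← integral_indicator measurableSet_Icc]
  congr 1
  funext x
  by_cases hx : x ∈ Icc (-h) h
  · rw [indicator_of_mem hx]
    have : 0 ≤ h - |x| := by
      have := abs_le.2 hx
      linarith
    unfold gg
    rw [max_eq_right this]
  · rw [indicator_of_notMem hx, gg_zero hx, zero_mul]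

lemma gg_even (h x : ℝ) : gg h (-x) = gg h x := by
  unfold gg
  rw [abs_neg, neg_sq]

/-- the Fourier transform of `gg` -/
lemma four {h : ℝ} (hh : 0 < h) (w : ℝ) :
    (∫ v : ℝ, Complex.exp (((-2 * Real.pi * (v * w) : ℝ) : ℂ) * Complex.I) * ((gg h v : ℝ) : ℂ)) =
      ((2 * Real.pi * rr h (2 * Real.pi * w) : ℝ) : ℂ) := by
  have e : ∀ v : ℝ, Complex.exp (((-2 * Real.pi * (v * w) : ℝ) : ℂ) * Complex.I) * ((gg h v : ℝ) : ℂ) =
      ((gg h v * Real.cos (2 * Real.pi * w * v) : ℝ) : ℂ) - ((gg h v * Real.sin (2 * Real.pi * w * v) : ℝ) : ℂ) * Complex.I := by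
    intro v
    rw [Complex.exp_mul_I, ← Complex.ofReal_cos, ← Complex.ofReal_sin]
    have a1 : Real.cos (-2 * Real.pi * (v * w)) = Real.cos (2 * Real.pi * w * v) := by
      rw [← Real.cos_neg]; congr 1; ring
    have a2 : Real.sin (-2 * Real.pi * (v * w)) = -Real.sin (2 * Real.pi * w * v) := by
      rw [← Real.sin_neg]; congr 1; ring
    rw [a1, a2]
    push_cast
    ring
  have i1 : Integrable fun v : ℝ => gg h v * Real.cos (2 * Real.pi * w * v) := by
    apply (gg_int h).mono (((gg_cont h).mul (by fun_prop : Continuous fun v : ℝ => Real.cos (2 * Real.pi * w * v))).aestronglyMeasurable)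
    refine Filter.Eventually.of_forall fun v => ?_
    simp only [Pi.mul_apply, norm_mul]
    have := Real.abs_cos_le_one (2 * Real.pi * w * v)
    rw [← Real.norm_eq_abs] at this
    nlinarith [norm_nonneg (gg h v)]
  have i2 : Integrable fun v : ℝ => gg h v * Real.sin (2 * Real.pi * w * v) := by
    apply (gg_int h).mono (((gg_cont h).mul (by fun_prop : Continuous fun v : ℝ => Real.sin (2 * Real.pi * w * v))).aestronglyMeasurable)
    refine Filter.Eventually.of_forall fun v => ?_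
    simp only [Pi.mul_apply, norm_mul]
    have := Real.abs_sin_le_one (2 * Real.pi * w * v)
    rw [← Real.norm_eq_abs] at this
    nlinarith [norm_nonneg (gg h v)]
  have o : (∫ v : ℝ, gg h v * Real.sin (2 * Real.pi * w * v)) = 0 := by
    have h1 := integral_neg_eq_self (fun v : ℝ => gg h v * Real.sin (2 * Real.pi * w * v)) volume
    have h2 : (∫ v : ℝ, gg h (-v) * Real.sin (2 * Real.pi * w * (-v))) = -∫ v : ℝ, gg h v * Real.sin (2 * Real.pi * w * v) := by
      rw [← integral_neg]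
      congr 1
      funext v
      rw [gg_even, mul_neg, Real.sin_neg]
      ring
    linarith
  calc _ = ∫ v : ℝ, (((gg h v * Real.cos (2 * Real.pi * w * v) : ℝ) : ℂ) - ((gg h v * Real.sin (2 * Real.pi * w * v) : ℝ) : ℂ) * Complex.I) := by
        congr 1; funext v; exact e v
    _ = (∫ v : ℝ, ((gg h v * Real.cos (2 * Real.pi * w * v) : ℝ) : ℂ)) - (∫ v : ℝ, ((gg h v * Real.sin (2 * Real.pi * w * v) : ℝ) : ℂ) * Complex.I) :=
        integral_sub i1.ofReal (i2.ofReal.mul_const _)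
    _ = ((∫ v : ℝ, gg h v * Real.cos (2 * Real.pi * w * v) : ℝ) : ℂ) := by
        have e1 : (∫ v : ℝ, ((gg h v * Real.cos (2 * Real.pi * w * v) : ℝ) : ℂ)) = ((∫ v : ℝ, gg h v * Real.cos (2 * Real.pi * w * v) : ℝ) : ℂ) := integral_ofReal
        have e2 : (∫ v : ℝ, ((gg h v * Real.sin (2 * Real.pi * w * v) : ℝ) : ℂ)) = ((∫ v : ℝ, gg h v * Real.sin (2 * Real.pi * w * v) : ℝ) : ℂ) := integral_ofReal
        rw [integral_mul_const, e1, e2, o]
        simp
    _ = _ := by
        rw [int_gg hh]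
        unfold rr
        congr 1
        have hpi := Real.pi_pos
        rw [← mul_assoc, mul_one_div_cancel (by positivity), one_mul]

open FourierTransform in
lemma inversion {h : ℝ} (hh : 0 < h) (h1 : h ≤ 1) (x : ℝ) : (∫ u : ℝ, rr h u * Real.cos (u * x)) = gg h x := by
  set f : ℝ → ℂ := fun v => ((gg h v : ℝ) : ℂ) with hf
  have hpi := Real.pi_pos
  have F1 : 𝓕 f = fun w => ((2 * Real.pi * rr h (2 * Real.pi * w) : ℝ) : ℂ) := by
    funext w
    rw [Real.fourier_eq', ← four hh w]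
    congr 1
    funext v
    simp only [hf, smul_eq_mul]
    congr 3
    simp
    ring
  have i0 : Integrable fun w : ℝ => 2 * Real.pi * rr h (2 * Real.pi * w) :=
    ((rr_integrable hh h1).comp_mul_left' (by positivity : (2 * Real.pi) ≠ 0)).const_mul _
  have hI : Integrable (𝓕 f) := by
    rw [F1]
    exact i0.ofReal
  have hinv := Continuous.fourierInv_fourier_eq (f := f) (by rw [hf]; exact Complex.continuous_ofReal.comp (gg_cont h)) (gg_int h).ofReal hI
  have h2 := congrFun hinv x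
  rw [Real.fourierInv_eq', F1] at h2
  have h3 := congrArg Complex.re h2
  have h4 : (∫ v : ℝ, Complex.exp (((2 * Real.pi * inner ℝ v x : ℝ) : ℂ) * Complex.I) • ((2 * Real.pi * rr h (2 * Real.pi * v) : ℝ) : ℂ)).re =
      ∫ v : ℝ, 2 * Real.pi * rr h (2 * Real.pi * v) * Real.cos (2 * Real.pi * v * x) := by
    have hint : Integrable fun v : ℝ => Complex.exp (((2 * Real.pi * inner ℝ v x : ℝ) : ℂ) * Complex.I) • ((2 * Real.pi * rr h (2 * Real.pi * v) : ℝ) : ℂ) := by
      have hc := rr_cont h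
      apply (i0.ofReal (𝕜 := ℂ)).mono
      · apply Continuous.aestronglyMeasurable
        have : Continuous fun v : ℝ => rr h (2 * Real.pi * v) := hc.comp (by fun_prop)
        have h5 : Continuous fun v : ℝ => (inner ℝ v x : ℝ) := by fun_prop
        fun_prop
      · refine Filter.Eventually.of_forall fun v => ?_
        rw [norm_smul, Complex.norm_exp_ofReal_mul_I, one_mul]
        exact le_of_eq rfl
    rw [← RCLike.re_eq_complex_re, ← integral_re hint]
    congr 1
    funext v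
    rw [RCLike.re_eq_complex_re, smul_eq_mul, Complex.re_mul_ofReal, Complex.exp_ofReal_mul_I_re]
    have : inner ℝ v x = v * x := by simp [mul_comm]
    rw [this]
    ring_nf
  have h5 : (∫ v : ℝ, 2 * Real.pi * rr h (2 * Real.pi * v) * Real.cos (2 * Real.pi * v * x)) = ∫ u : ℝ, rr h u * Real.cos (u * x) := by
    have := Measure.integral_comp_mul_left (fun u : ℝ => rr h u * Real.cos (u * x)) (2 * Real.pi)
    rw [abs_of_pos (by positivity), smul_eq_mul] at this
    have h6 : (∫ v : ℝ, 2 * Real.pi * rr h (2 * Real.pi * v) * Real.cos (2 * Real.pi * v * x)) =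
        2 * Real.pi * ∫ v : ℝ, rr h (2 * Real.pi * v) * Real.cos (2 * Real.pi * v * x) := by
      rw [← integral_const_mul]
      congr 1
      funext v
      ring
    rw [h6, this, ← mul_assoc, mul_inv_cancel₀ (by positivity), one_mul]
  rw [h4, h5] at h3
  rw [h3]
  simp [hf]

theorem t_R : S_R := by
  refine ⟨12, by norm_num, fun h hh h1 => ⟨rr_cont h, rr_integrable hh h1, rr_even h, rr_le hh h1, rr_sq hh h1, fun u hu => rr_asym hh h1 hu, fun x => ?_⟩⟩
  rw [inversion hh h1]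
  unfold gg
  rw [mul_assoc, ← Real.exp_add]
  have : x ^ 2 / 4 + -x ^ 2 / 4 = 0 := by ring
  rw [this, Real.exp_zero, mul_one]

end

end Pool.Agent.U460.MV.R
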